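import Pool.Agent.H756.RK.FlipK
import Pool.Agent.H756.RP.Reduce
import Pool.Agent.H756.RP.Fin

set_option autoImplicit false

/-!
# The knotoid diagram of an open polygonal chain
-/

namespace Pool.Agent.H756.RK

open LaurentPolynomial
open Pool.Agent.H832R2.JR (GaussWord fPoly)
open Pool.Agent.H756.RP
open Pool.Agent.H756.RV (cut cutX cutX_iff word_cut word_injK)

variable {n : ℕ}

/-- the point with the parameter `s` on the edge `i` of the open chain with the vertices `p` -/
def cpt (p : Fin (n + 1) → Pt) (i : Fin n) (s : ℝ) : Pt := (1 - s) • p i.castSucc + s • p i.succ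

/-- the determinant of the directions of the projections of the edges `i` and `j` -/
def cdet (p : Fin (n + 1) → Pt) (i j : Fin n) : ℝ :=
  ((p i.succ).1 - (p i.castSucc).1) * ((p j.succ).2.1 - (p j.castSucc).2.1) -
    ((p i.succ).2.1 - (p i.castSucc).2.1) * ((p j.succ).1 - (p j.castSucc).1)

/-- `G` and `w` are the Gauss word and the signs of the knotoid diagram which is the projection of the
open polygonal chain with the vertices `p 0, ..., p n`: there are edges `a x` and parameters `t x` for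
the passages `x` of the crossings, such that

* the passages are interior points of edges, and the two passages of a crossing have the same
  projection;
* any two different points of the chain with the same projection are the two passages of a
  crossing (in particular, the end points are not on other edges);
* `G` numbers the passages in the order in which they are met;
* at a crossing the projections of the edges are not parallel, the heights are different, and
  the crossing is positive (`w c = true`) if and only if (the direction of the upper strand,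
  the direction of the lower strand) is a positive frame of the plane. -/
def DescribesK (p : Fin (n + 1) → Pt) {N : ℕ} (G : GaussWord N) (w : Fin N → Bool) : Prop :=
  ∃ (a : Fin N × Bool → Fin n) (t : Fin N × Bool → ℝ),
    (∀ x, 0 < t x ∧ t x < 1) ∧
    (∀ c, (cpt p (a (c, false)) (t (c, false))).1 = (cpt p (a (c, true)) (t (c, true))).1 ∧
      (cpt p (a (c, false)) (t (c, false))).2.1 = (cpt p (a (c, true)) (t (c, true))).2.1) ∧
    (∀ (i j : Fin n) (s r : ℝ), 0 ≤ s → s ≤ 1 → 0 ≤ r → r ≤ 1 → (i : ℝ) + s ≠ (j : ℝ) + r →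
      (cpt p i s).1 = (cpt p j r).1 → (cpt p i s).2.1 = (cpt p j r).2.1 →
      ∃ c b, a (c, b) = i ∧ t (c, b) = s ∧ a (c, !b) = j ∧ t (c, !b) = r) ∧
    (∀ x y, G x < G y ↔ a x < a y ∨ (a x = a y ∧ t x < t y)) ∧
    ∀ c, cdet p (a (c, false)) (a (c, true)) ≠ 0 ∧
      (cpt p (a (c, false)) (t (c, false))).2.2 ≠ (cpt p (a (c, true)) (t (c, true))).2.2 ∧
      (w c = true ↔ (0 < cdet p (a (c, false)) (a (c, true)) ↔
        (cpt p (a (c, true)) (t (c, true))).2.2 < (cpt p (a (c, false)) (t (c, false))).2.2))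

theorem nx_castSucc (i : Fin n) : nx i.castSucc = i.succ := by
  apply Fin.ext
  rw [nx_val, if_neg (by rw [Fin.val_castSucc]; have := i.2; omega)]
  rfl

theorem cpt_eq (p : Fin (n + 1) → Pt) (i : Fin n) (s : ℝ) : cpt p i s = ept p i.castSucc s := by
  unfold cpt ept
  rw [nx_castSucc]

theorem cdet_eq (p : Fin (n + 1) → Pt) (i j : Fin n) :
    cdet p i j = det p i.castSucc j.castSucc := by
  unfold cdet det
  rw [nx_castSucc, nx_castSucc]

/-- the edges which are not the closing edge -/
theorem exists_cast {i : Fin (n + 1)} (h : (i : ℕ) + 1 < n + 1) : ∃ j : Fin n, j.castSucc = i :=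
  ⟨⟨i, by omega⟩, Fin.ext rfl⟩

/-- points with the same projection -/
theorem commonK (hn : 2 ≤ n) {p : Fin (n + 1) → Pt} (hp : Gen p) {i j : Fin n} {s r : ℝ}
    (hs0 : 0 ≤ s) (hs1 : s ≤ 1) (hr0 : 0 ≤ r) (hr1 : r ≤ 1) (hne : (i : ℝ) + s ≠ (j : ℝ) + r)
    (hx : (cpt p i s).1 = (cpt p j r).1) (hy : (cpt p i s).2.1 = (cpt p j r).2.1) :
    Cr p i.castSucc j.castSucc ∧ s = par p i.castSucc j.castSucc ∧
      r = par p j.castSucc i.castSucc := by
  -- a point as a point of the closed polygon
  have key : ∀ (i : Fin n) (s : ℝ), 0 ≤ s → s ≤ 1 → ∃ (i' : Fin (n + 1)) (s' : ℝ), 0 ≤ s' ∧ s' < 1 ∧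
      cpt p i s = ept p i' s' ∧ (i : ℝ) + s = (i' : ℕ) + s' ∧
      ((i' = i.castSucc ∧ s' = s) ∨ s' = 0) := by
    intro i s h0 h1
    rcases lt_or_eq_of_le h1 with h2 | h2
    · exact ⟨i.castSucc, s, h0, h2, cpt_eq p i s, by simp, Or.inl ⟨rfl, rfl⟩⟩
    · refine ⟨i.succ, 0, le_rfl, one_pos, ?_, ?_, Or.inr rfl⟩
      · rw [h2]
        unfold cpt ept
        simp
      · rw [h2]
        simp
  obtain ⟨i', s', a1, a2, a3, a4, a5⟩ := key i s hs0 hs1
  obtain ⟨j', r', b1, b2, b3, b4, b5⟩ := key j r hr0 hr1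
  rw [a3, b3] at hx hy
  have hne' : (i', s') ≠ (j', r') := by
    intro h
    apply hne
    obtain ⟨h1, h2⟩ := Prod.ext_iff.1 h
    simp only at h1 h2
    rw [a4, b4, h1, h2]
  obtain ⟨h1, h2, h3⟩ := common (by omega) hp a1 a2 b1 b2 hne' hx hy
  rcases a5 with ⟨rfl, rfl⟩ | a5
  · rcases b5 with ⟨rfl, rfl⟩ | b5
    · exact ⟨h1, h2, h3⟩
    · exact absurd h1.2.2.1 (by rw [← h3, b5]; exact lt_irrefl _)
  · exact absurd h1.2.1.1 (by rw [← h2, a5]; exact lt_irrefl _)

theorem descK_exists (hn : 2 ≤ n) (p : Fin (n + 1) → Pt) (hp : Gen p) :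
    ∃ (N : ℕ) (G : GaussWord N) (w : Fin N → Bool), DescribesK p G w := by
  obtain ⟨N, G, e, h⟩ := word_cut hp
  have hX : ∀ x, Cr p (e x).1 (e x).2 ∧ ((e x).1 : ℕ) + 1 < n + 1 ∧ ((e x).2 : ℕ) + 1 < n + 1 :=
    fun x => (cutX_iff p _ _).1 (h.1 x)
  have hCr : ∀ x, Cr p (e x).1 (e x).2 := fun x => (hX x).1
  choose a ha using fun x => exists_cast (hX x).2.1
  have hcp : ∀ x s, cpt p (a x) s = ept p (e x).1 s := fun x s => by rw [cpt_eq, ha]
  have hcd : ∀ x y, cdet p (a x) (a y) = det p (e x).1 (e y).1 := fun x y => by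
    rw [cdet_eq, ha, ha]
  have hav : ∀ x, ((a x : ℕ)) = ((e x).1 : ℕ) := fun x => by
    rw [← ha x]
    rfl
  refine ⟨N, G, fun c => (dat p).2.2 (e (c, false)).1 (e (c, false)).2,
    a, fun x => par p (e x).1 (e x).2, ?_, ?_, ?_, ?_, ?_⟩
  · intro x
    exact (hCr x).2.1
  · intro c
    have hs := h.2.1 c
    have h1 : (e (c, true)).1 = (e (c, false)).2 := by rw [hs]; rfl
    have h2 : (e (c, true)).2 = (e (c, false)).1 := by rw [hs]; rfl
    simp only [hcp, h1, h2]
    exact (meet (hCr (c, false)).1 _ _).2 ⟨rfl, rfl⟩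
  · intro i j s r hs0 hs1 hr0 hr1 hne hx hy
    obtain ⟨hC, hs, hr⟩ := commonK hn hp hs0 hs1 hr0 hr1 hne hx hy
    obtain ⟨⟨c, b⟩, hx⟩ := h.2.2.1 i.castSucc j.castSucc ((cutX_iff p _ _).2 ⟨hC, by simp, by simp⟩)
    refine ⟨c, b, ?_, ?_, ?_, ?_⟩
    · apply Fin.ext
      rw [hav, hx]
      rfl
    · simp only [hx]; exact hs.symm
    · apply Fin.ext
      rw [hav, desc_word_swap h, hx]
      rfl
    · simp only [desc_word_swap h, hx, Prod.swap]; exact hr.symm
  · intro x y
    have e1 : a x < a y ↔ (e x).1 < (e y).1 := by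
      rw [Fin.lt_def, Fin.lt_def, hav, hav]
    have e2 : a x = a y ↔ (e x).1 = (e y).1 := by
      rw [Fin.ext_iff, Fin.ext_iff, hav, hav]
    rw [h.2.2.2 x y, dat_O, e1, e2]
    constructor
    · rintro (h1 | ⟨h1, h2⟩)
      · exact Or.inl h1
      · right
        refine ⟨h1, ?_⟩
        simp only [← h1]
        exact h2
    · rintro (h1 | ⟨h1, h2⟩)
      · exact Or.inl h1
      · right
        refine ⟨h1, ?_⟩
        simp only [← h1] at h2
        exact h2
  · intro c
    have hs := h.2.1 c
    have h1 : (e (c, true)).1 = (e (c, false)).2 := by rw [hs]; rfl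
    have h2 : (e (c, true)).2 = (e (c, false)).1 := by rw [hs]; rfl
    simp only [hcp, hcd, h1, h2, ept_z]
    have hc := hCr (c, false)
    have hg := hp.nogap _ _ hc
    refine ⟨hc.1, ?_, ?_⟩
    · intro h0
      apply hg
      unfold gap
      rw [h0]; ring
    · rw [dat_S, sign_iff hc.1 hg]
      unfold gap
      rw [sub_pos]

/-- the polynomial of any description is computed from any word of the data -/
theorem descK_word (p : Fin (n + 1) → Pt)
    (hp : Gen p) {N N' : ℕ} (G : GaussWord N) (w : Fin N → Bool) (h : DescribesK p G w)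
    (G' : GaussWord N') (e : Fin N' × Bool → Fin (n + 1) × Fin (n + 1))
    (he : IsWord (cutX (dat p).1) (dat p).2.1 G' e) :
    fPoly G w = fPoly G' (fun c => (dat p).2.2 (e (c, false)).1 (e (c, false)).2) := by
  obtain ⟨a', t, h1, h2, h3, h4, h5⟩ := h
  set a : Fin N × Bool → Fin (n + 1) := fun x => (a' x).castSucc with hadef
  simp only [cpt_eq, cdet_eq] at h2 h3 h5
  have h2 : ∀ c, (ept p (a (c, false)) (t (c, false))).1 = (ept p (a (c, true)) (t (c, true))).1 ∧
      (ept p (a (c, false)) (t (c, false))).2.1 = (ept p (a (c, true)) (t (c, true))).2.1 := h2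
  have h5 : ∀ c, det p (a (c, false)) (a (c, true)) ≠ 0 ∧
      (ept p (a (c, false)) (t (c, false))).2.2 ≠ (ept p (a (c, true)) (t (c, true))).2.2 ∧
      (w c = true ↔ (0 < det p (a (c, false)) (a (c, true)) ↔
        (ept p (a (c, true)) (t (c, true))).2.2 < (ept p (a (c, false)) (t (c, false))).2.2)) := h5
  have h4 : ∀ x y, G x < G y ↔ a x < a y ∨ (a x = a y ∧ t x < t y) := by
    intro x y
    rw [h4 x y]
    have e1 : a x < a y ↔ a' x < a' y := Fin.castSucc_lt_castSucc_iff
    have e2 : a x = a y ↔ a' x = a' y := Fin.castSucc_inj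
    rw [e1, e2]
  -- the two parameters
  have hpar0 : ∀ c, t (c, false) = par p (a (c, false)) (a (c, true)) ∧
      t (c, true) = par p (a (c, true)) (a (c, false)) := fun c =>
    (meet (h5 c).1 _ _).1 (h2 c)
  have hpar : ∀ x : Fin N × Bool, t x = par p (a x) (a (x.1, !x.2)) := by
    rintro ⟨c, b⟩
    cases b
    · exact (hpar0 c).1
    · exact (hpar0 c).2
  have hdet : ∀ x : Fin N × Bool, det p (a x) (a (x.1, !x.2)) ≠ 0 := by
    rintro ⟨c, b⟩
    cases b
    · exact (h5 c).1
    · have := (h5 c).1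
      show det p (a (c, true)) (a (c, false)) ≠ 0
      rw [det_swap]
      exact neg_ne_zero.mpr this
  have hCr : ∀ x : Fin N × Bool, Cr p (a x) (a (x.1, !x.2)) := by
    intro x
    refine ⟨hdet x, ?_, ?_⟩
    · rw [← hpar x]; exact h1 x
    · have h6 := hpar (x.1, !x.2)
      simp only [Bool.not_not] at h6
      have h7 := h1 (x.1, !x.2)
      rw [h6] at h7
      exact h7
  -- the map to the pairs of crossing edges
  have finj : ∀ x y : Fin N × Bool, a x = a y → a (x.1, !x.2) = a (y.1, !y.2) → x = y := by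
    intro x y hxy hxy'
    have ht : t x = t y := by rw [hpar x, hpar y, hxy, hxy']
    have g1 : ¬ G x < G y := by
      rw [h4]
      rintro (h | ⟨-, h⟩)
      · rw [hxy] at h; exact lt_irrefl _ h
      · rw [ht] at h; exact lt_irrefl _ h
    have g2 : ¬ G y < G x := by
      rw [h4]
      rintro (h | ⟨-, h⟩)
      · rw [hxy] at h; exact lt_irrefl _ h
      · rw [ht] at h; exact lt_irrefl _ h
    exact G.injective (le_antisymm (not_lt.mp g2) (not_lt.mp g1))
  have einj : Function.Injective e := word_injK he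
  have hex : ∀ x : Fin N × Bool, ∃ y : Fin N' × Bool, e y = (a x, a (x.1, !x.2)) := fun x =>
    he.2.2.1 _ _ ((cutX_iff p _ _).2 ⟨hCr x, by simp [hadef], by simp [hadef]⟩)
  choose f hf using hex
  have hfbij : Function.Bijective f := by
    constructor
    · intro x y hxy
      have h6 := hf x
      rw [hxy, hf y] at h6
      have h7 := Prod.ext_iff.mp h6
      exact finj x y h7.1.symm h7.2.symm
    · intro y
      obtain ⟨hC, l1, l2⟩ := (cutX_iff p _ _).1 (he.1 y)
      have hm := (meet hC.1 _ _).2 ⟨rfl, rfl⟩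
      obtain ⟨i', hi'⟩ := exists_cast l1
      obtain ⟨j', hj'⟩ := exists_cast l2
      have hneij : i' ≠ j' := by
        intro h6
        rw [← hi', ← hj', h6] at hC
        exact Cr_irrefl p _ hC
      have hne : (i' : ℝ) + par p (e y).1 (e y).2 ≠ (j' : ℝ) + par p (e y).2 (e y).1 := by
        intro h6
        have q1 := hC.2.1.1
        have q2 := hC.2.1.2
        have q3 := hC.2.2.1
        have q4 := hC.2.2.2
        have q5 : ((i' : ℕ) : ℝ) < (j' : ℕ) + 1 := by linarith
        have q6 : ((j' : ℕ) : ℝ) < (i' : ℕ) + 1 := by linarith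
        have q7 : (i' : ℕ) < (j' : ℕ) + 1 := by exact_mod_cast q5
        have q8 : (j' : ℕ) < (i' : ℕ) + 1 := by exact_mod_cast q6
        exact hneij (Fin.ext (by omega))
      obtain ⟨c, b, g1, -, g2, -⟩ := h3 i' j' _ _ hC.2.1.1.le hC.2.1.2.le hC.2.2.1.le hC.2.2.2.le hne
        (by rw [hi', hj']; exact hm.1) (by rw [hi', hj']; exact hm.2)
      refine ⟨(c, b), einj ?_⟩
      rw [hf]
      show ((a' (c, b)).castSucc, (a' (c, !b)).castSucc) = e y
      rw [g1, g2, hi', hj']
  let φ : Fin N × Bool ≃ Fin N' × Bool := Equiv.ofBijective f hfbij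
  have hφ : ∀ x, e (φ x) = (a x, a (x.1, !x.2)) := hf
  have hφs : ∀ c b, φ (c, !b) = ((φ (c, b)).1, !(φ (c, b)).2) := by
    intro c b
    apply einj
    rw [desc_word_swap he, Prod.mk.eta, hφ, hφ]
    simp
  have hord : ∀ x y, G' (φ x) < G' (φ y) ↔ G x < G y := by
    intro x y
    rw [he.2.2.2, dat_O, hφ, hφ, h4, hpar x, hpar y]
    constructor
    · rintro (h | ⟨h, h'⟩)
      · exact Or.inl h
      · right
        refine ⟨h, ?_⟩
        simp only at h h'
        rw [← h]
        exact h'
    · rintro (h | ⟨h, h'⟩)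
      · exact Or.inl h
      · right
        refine ⟨h, ?_⟩
        simp only
        rw [← h] at h'
        exact h'
  let ψ : Fin (2 * N) ≃o Fin (2 * N') :=
    { toEquiv := (G.symm.trans φ).trans G'
      map_rel_iff' := by
        intro u v
        simp only [Equiv.trans_apply]
        rw [← not_lt, ← not_lt, hord]
        simp }
  have hval : ∀ x, (G' (φ x) : ℕ) = G x := by
    intro x
    have h6 := Fin.coe_orderIso_apply ψ (G x)
    have h7 : ψ (G x) = G' (φ x) := by
      show G' (φ (G.symm (G x))) = G' (φ x)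
      rw [Equiv.symm_apply_apply]
    rw [h7] at h6
    exact h6
  apply srelabel N N' G G' φ hφs hval
  have hw' : ∀ x : Fin N' × Bool, (dat p).2.2 (e (x.1, false)).1 (e (x.1, false)).2 =
      (dat p).2.2 (e x).1 (e x).2 := by
    rintro ⟨c, b⟩
    cases b
    · rfl
    · show (dat p).2.2 (e (c, false)).1 (e (c, false)).2 =
        (dat p).2.2 (e (c, true)).1 (e (c, true)).2
      rw [he.2.1 c]
      exact dat_S_symm p _ _
  have key : ∀ c, (dat p).2.2 (e ((φ (c, false)).1, false)).1 (e ((φ (c, false)).1, false)).2 =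
      w c := by
    intro c
    rw [hw' (φ (c, false)), hφ, Bool.eq_iff_iff, dat_S]
    show 0 < det p (a (c, false)) (a (c, true)) * gap p (a (c, false)) (a (c, true)) ↔ w c = true
    have hc : Cr p (a (c, false)) (a (c, true)) := hCr (c, false)
    have hg := hp.nogap _ _ hc
    rw [sign_iff hc.1 hg, (h5 c).2.2, ept_z, ept_z, (hpar0 c).1, (hpar0 c).2]
    show (_ ↔ 0 < gap p (a (c, false)) (a (c, true))) ↔ _
    unfold gap
    rw [sub_pos]
  intro c b
  cases b
  · exact key c
  · have h6 := hφs c false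
    simp only [Bool.not_false] at h6
    rw [h6]
    exact key c

theorem descK_pol (p : Fin (n + 1) → Pt)
    (hp : Gen p) {N : ℕ} (G : GaussWord N) (w : Fin N → Bool) (h : DescribesK p G w) :
    fPoly G w = pol (cut (dat p)) := by
  obtain ⟨N', G', e, hW, hpol⟩ := pol_eq _ _ (word_cut hp)
  rw [descK_word p hp G w h G' e hW]
  exact (hpol _).symm

open Reduce in
theorem sim_describesK (p : Fin (n + 1) → Pt) (a : Pt) (s : ℝ) (hs : 0 < s) {N : ℕ}
    (G : GaussWord N) (w : Fin N → Bool) :
    DescribesK p G w ↔ DescribesK (fun i => sim a s (p i)) G w := by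
  have hs2 : 0 < s ^ 2 := by positivity
  have h0 : ∀ i j : Fin (n + 1), (det p i j / s ^ 2 ≠ 0) ↔ (det p i j ≠ 0) := by
    intro i j
    rw [ne_eq, div_eq_zero_iff]
    simp [hs2.ne']
  have h1 : ∀ i j : Fin (n + 1), (0 < det p i j / s ^ 2) ↔ (0 < det p i j) := by
    intro i j
    rw [div_pos_iff_of_pos_right hs2]
  unfold DescribesK
  simp only [cpt_eq, cdet_eq, ept_1, ept_2, ept_3, det_sim, div_eq hs, div_lt hs, h0, h1, ne_eq]

end Pool.Agent.H756.RK
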