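import Pool.Agent.H756.RK.Chain
import Pool.Agent.H756.RV.FinV
import Pool.Agent.H756.RV.FinJ

set_option autoImplicit false

/-!
Random knotoids: the normalised bracket of open polygonal chains with independent vertices.
-/

namespace Pool.Agent.H756.RK

open MeasureTheory Finset LaurentPolynomial
open scoped ENNReal
open Pool.Agent.H756.RP
open Pool.Agent.H756.RV (coreK diffCut arrJ aJ aJ_ne cut pair_bound dat2 moment3_zero)
open Pool.Agent.H832R2.JR (GaussWord fPoly)
open Pool.Agent.H832R3.VJ (moment)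

theorem bound_K {κ : Measure (Pt × Bool)} {c₀ H : ℝ} (hκ : Law κ c₀ H) {d : ℕ} (hd : 2 ≤ d) :
    ∃ K : ℝ, 0 < K ∧ ∀ n : ℕ, 1 ≤ n → ∀ c : ℤ,
      (Measure.pi fun _ : Fin n => κ) {ω | moment d (pol (cut (dat (pts ω)))) = c} ≤
        ENNReal.ofReal (K * (n : ℝ) ^ (-(4 / (5 * 2 ^ d)) : ℝ)) := by
  obtain ⟨K, hK, h⟩ := coreK hκ hd (arrJ hd)
  refine ⟨K, hK, fun n hn c => ?_⟩
  exact h n hn ℤ (fun p => moment d (pol (cut (dat p)))) (fun e => moment d (pol (cut e.1)))
    (fun _ => rfl) (aJ d) (fun k hk => by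
      rw [smul_eq_mul] at hk
      exact (mul_eq_zero.1 hk).resolve_right (aJ_ne hd)) (diffCut hd) c

/-- the law of a polygonal chain with `n` independent vertices -/
noncomputable def law (ρ : Pt → ℝ≥0∞) (n : ℕ) : Measure (Fin n → Pt) :=
  Measure.pi fun _ => (volume : Measure Pt).withDensity ρ

theorem finalK (ρ : Pt → ℝ≥0∞) (hρ : Measurable ρ) (h1 : ∫⁻ q, ρ q = 1) (h : ℝ × ℝ → ℝ≥0∞)
    (hh : Measurable h) (hfin : ∫⁻ q, h q ≠ ∞) (hle : ∀ q, ρ q ≤ h (q.1, q.2.1)) (U : Set Pt)
    (hU : IsOpen U) (hne : U.Nonempty) (b : ℝ≥0∞) (hb : b ≠ 0) (hbU : ∀ q ∈ U, b ≤ ρ q)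
    (d : ℕ) (hd : 2 ≤ d) :
    ∃ C : ℝ, 0 < C ∧
      (∀ n : ℕ, 2 ≤ n →
        (∀ᵐ p ∂(law ρ (n + 1)), ∃ (N : ℕ) (G : GaussWord N) (w : Fin N → Bool),
          DescribesK p G w) ∧
        ∀ c : ℤ, law ρ (n + 1) {p | ∃ (N : ℕ) (G : GaussWord N) (w : Fin N → Bool),
          DescribesK p G w ∧ moment d (fPoly G w) = c} ≤
          ENNReal.ofReal (C * (n : ℝ) ^ (-(4 / (5 * 2 ^ d)) : ℝ))) ∧
      ∀ m n : ℕ, 2 ≤ m → 2 ≤ n →
        ((law ρ (m + 1)).prod (law ρ (n + 1)))
          {z | ∃ (M N : ℕ) (F : GaussWord M) (G : GaussWord N) (v : Fin M → Bool)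
            (w : Fin N → Bool), DescribesK z.1 F v ∧ DescribesK z.2 G w ∧
            moment d (fPoly F v) = moment d (fPoly G w)} ≤
          ENNReal.ofReal (C * (max m n : ℝ) ^ (-(4 / (5 * 2 ^ d)) : ℝ)) := by
  obtain ⟨a, s, κ, c₀, H, hs, hκ, hmap⟩ := reduce ρ hρ h1 h hh hfin hle U hU hne b hb hbU
  have hsim : Measurable (sim a s) := Reduce.measurable_sim a s
  have hprob : IsProbabilityMeasure ((volume : Measure Pt).withDensity ρ) :=
    ⟨by rw [withDensity_apply _ MeasurableSet.univ, Measure.restrict_univ, h1]⟩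
  have hlaw : ∀ n, IsProbabilityMeasure (law ρ n) := fun n => by
    unfold law
    infer_instance
  obtain ⟨C, hC, hbd⟩ := bound_K hκ hd
  have hgen0 : ∀ n : ℕ, 2 ≤ n → law ρ (n + 1)
      {p | (fun i => sim a s (p i)) ∈ {p : Fin (n + 1) → Pt | Gen p}ᶜ} = 0 := by
    intro n hn
    unfold law
    rw [transfer ρ hρ h1 hκ hmap hsim (n + 1) _ measurableSet_gen.compl]
    exact gen_ae hκ (by omega)
  have hmd : ∀ n : ℕ, Measurable fun p : Fin (n + 1) → Pt => dat (fun i => sim a s (p i)) := by
    intro n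
    exact (measurable_dat (n + 1)).comp
      (measurable_pi_lambda _ fun i => hsim.comp (measurable_pi_apply i))
  have hval : ∀ n : ℕ, ∀ p : Fin (n + 1) → Pt, Gen (fun i => sim a s (p i)) →
      ∀ (N : ℕ) (G : GaussWord N) (w : Fin N → Bool), DescribesK p G w →
      fPoly G w = pol (cut (dat (fun i => sim a s (p i)))) := by
    intro n p hp N G w hG
    exact descK_pol _ hp G w ((sim_describesK p a s hs G w).1 hG)
  have hone : ∀ n : ℕ, 2 ≤ n → ∀ c : ℤ, law ρ (n + 1)
      {p | moment d (pol (cut (dat (fun i => sim a s (p i))))) = c} ≤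
        ENNReal.ofReal (C * (n : ℝ) ^ (-(4 / (5 * 2 ^ d)) : ℝ)) := by
    intro n hn c
    have hmeas : MeasurableSet {p : Fin (n + 1) → Pt | moment d (pol (cut (dat p))) = c} :=
      (measurable_dat (n + 1)) (t := {e | moment d (pol (cut e)) = c}) (Set.toFinite _).measurableSet
    have h2 := transfer ρ hρ h1 hκ hmap hsim (n + 1) _ hmeas
    have h3 := hbd (n + 1) (by omega) c
    refine (le_of_eq h2).trans (h3.trans (ENNReal.ofReal_le_ofReal ?_))
    refine mul_le_mul_of_nonneg_left ?_ hC.le
    refine Real.rpow_le_rpow_of_nonpos (by positivity) ?_ ?_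
    · push_cast
      linarith
    · have : (0 : ℝ) < 4 / (5 * 2 ^ d) := by positivity
      linarith
  refine ⟨C, hC, fun n hn => ⟨?_, fun c => ?_⟩, ?_⟩
  · have hgen : ∀ᵐ p ∂(law ρ (n + 1)), Gen (fun i => sim a s (p i)) := by
      rw [ae_iff]
      exact hgen0 n hn
    filter_upwards [hgen] with p hp
    obtain ⟨N, G, w, hG⟩ := descK_exists hn _ hp
    exact ⟨N, G, w, (sim_describesK p a s hs G w).2 hG⟩
  · have hsub : {p : Fin (n + 1) → Pt | ∃ (N : ℕ) (G : GaussWord N) (w : Fin N → Bool),
        DescribesK p G w ∧ moment d (fPoly G w) = c} ⊆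
        {p | (fun i => sim a s (p i)) ∈ {p : Fin (n + 1) → Pt | Gen p}ᶜ} ∪
        {p | moment d (pol (cut (dat (fun i => sim a s (p i))))) = c} := by
      rintro p ⟨N, G, w, hG, hc⟩
      by_cases hg : Gen (fun i => sim a s (p i))
      · right
        show moment d (pol (cut (dat (fun i => sim a s (p i))))) = c
        rw [← hval n p hg N G w hG, hc]
      · left
        exact hg
    refine (measure_mono hsub).trans ((measure_union_le _ _).trans ?_)
    rw [hgen0 n hn, zero_add]
    exact hone n hn c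
  · have hpair : ∀ m n : ℕ, 2 ≤ m → 2 ≤ n →
        ((law ρ (m + 1)).prod (law ρ (n + 1)))
          {z | ∃ (M N : ℕ) (F : GaussWord M) (G : GaussWord N) (v : Fin M → Bool)
            (w : Fin N → Bool), DescribesK z.1 F v ∧ DescribesK z.2 G w ∧
            moment d (fPoly F v) = moment d (fPoly G w)} ≤
        ((law ρ (m + 1)).prod (law ρ (n + 1)))
          {z | moment d (pol (cut (dat (fun i => sim a s (z.1 i))))) =
            moment d (pol (cut (dat (fun i => sim a s (z.2 i)))))} := by
      intro m n hm hn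
      have hsub : {z : (Fin (m + 1) → Pt) × (Fin (n + 1) → Pt) |
          ∃ (M N : ℕ) (F : GaussWord M) (G : GaussWord N) (v : Fin M → Bool)
            (w : Fin N → Bool), DescribesK z.1 F v ∧ DescribesK z.2 G w ∧
            moment d (fPoly F v) = moment d (fPoly G w)} ⊆
          {z | moment d (pol (cut (dat (fun i => sim a s (z.1 i))))) =
            moment d (pol (cut (dat (fun i => sim a s (z.2 i)))))} ∪
          (({p | (fun i => sim a s (p i)) ∈ {p : Fin (m + 1) → Pt | Gen p}ᶜ} ×ˢ Set.univ) ∪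
          (Set.univ ×ˢ {p | (fun i => sim a s (p i)) ∈ {p : Fin (n + 1) → Pt | Gen p}ᶜ})) := by
        rintro z ⟨M, N, F, G, v, w, hF, hG, hz⟩
        by_cases hg1 : Gen (fun i => sim a s (z.1 i))
        · by_cases hg2 : Gen (fun i => sim a s (z.2 i))
          · left
            show moment d (pol (cut (dat (fun i => sim a s (z.1 i))))) =
              moment d (pol (cut (dat (fun i => sim a s (z.2 i)))))
            rw [← hval m z.1 hg1 M F v hF, ← hval n z.2 hg2 N G w hG]
            exact hz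
          · right
            right
            exact ⟨Set.mem_univ _, hg2⟩
        · right
          left
          exact ⟨hg1, Set.mem_univ _⟩
      refine (measure_mono hsub).trans ((measure_union_le _ _).trans ?_)
      have h0 : ((law ρ (m + 1)).prod (law ρ (n + 1)))
          (({p | (fun i => sim a s (p i)) ∈ {p : Fin (m + 1) → Pt | Gen p}ᶜ} ×ˢ Set.univ) ∪
          (Set.univ ×ˢ {p | (fun i => sim a s (p i)) ∈ {p : Fin (n + 1) → Pt | Gen p}ᶜ})) = 0 := by
        refine measure_union_null ?_ ?_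
        · rw [Measure.prod_prod, hgen0 m hm, zero_mul]
        · rw [Measure.prod_prod, hgen0 n hn, mul_zero]
      rw [h0, add_zero]
    have hright : ∀ m n : ℕ, 2 ≤ m → 2 ≤ n →
        ((law ρ (m + 1)).prod (law ρ (n + 1)))
          {z | moment d (pol (cut (dat (fun i => sim a s (z.1 i))))) =
            moment d (pol (cut (dat (fun i => sim a s (z.2 i)))))} ≤
          ENNReal.ofReal (C * (n : ℝ) ^ (-(4 / (5 * 2 ^ d)) : ℝ)) := by
      intro m n hm hn
      exact pair_bound _ _ (fun p : Fin (m + 1) → Pt => dat (fun i => sim a s (p i)))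
        (fun p : Fin (n + 1) → Pt => dat (fun i => sim a s (p i)))
        (fun e => moment d (pol (cut e))) (fun e => moment d (pol (cut e))) (hmd m)
        (fun e => (Set.toFinite _).measurableSet) _ (hone n hn)
    intro m n hm hn
    rcases le_total m n with hmn | hmn
    · have e : (max m n : ℝ) = n := by
        rw [max_eq_right]
        exact_mod_cast hmn
      rw [e]
      exact (hpair m n hm hn).trans (hright m n hm hn)
    · have e : (max m n : ℝ) = m := by
        rw [max_eq_left]
        exact_mod_cast hmn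
      rw [e]
      refine (hpair m n hm hn).trans ?_
      rw [← Measure.prod_swap, Measure.map_apply measurable_swap]
      · refine le_trans (le_of_eq ?_) (hright n m hn hm)
        congr 1
        ext z
        exact eq_comm
      · have : MeasurableSet ({e : Dat (m + 1) × Dat (n + 1) |
            moment d (pol (cut e.1)) = moment d (pol (cut e.2))}) :=
          (Set.toFinite _).measurableSet
        exact ((hmd m).comp measurable_fst |>.prodMk ((hmd n).comp measurable_snd)) this

end Pool.Agent.H756.RK
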