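import Pool.Agent.H756.RV.FlipJ
import Pool.Agent.H756.RK.CoreK
import Pool.Agent.H756.RP.Desc

set_option autoImplicit false

/-!
The crossings of an open polygonal chain, or of other subsets of the set of crossings of a polygon.
-/

namespace Pool.Agent.H756.RV

open Finset Function LaurentPolynomial
open Pool.Agent.H756.RP
open Pool.Agent.H832R2.JR (GaussWord fPoly Crosses)
open Pool.Agent.H832R3.VJ (moment)

variable {n N : ℕ}

/-- the word is injective -/
theorem word_injK {p : Fin n → Pt} {X : Fin n → Fin n → Bool} {G : GaussWord N}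
    {e : Fin N × Bool → Fin n × Fin n} (h : IsWord X (dat p).2.1 G e) : Injective e := by
  have hO : ∀ i j, (dat p).2.1 i j j = false := by
    intro i j
    unfold dat
    simp
  have key : ∀ x y, e x = e y → ¬ G x < G y := by
    intro x y hxy hlt
    rw [h.2.2.2 x y, hxy, hO] at hlt
    rcases hlt with h1 | ⟨_, h1⟩
    · exact lt_irrefl _ h1
    · exact absurd h1 (by simp)
  intro x y hxy
  apply G.injective
  exact le_antisymm (not_lt.1 (key y x hxy.symm)) (not_lt.1 (key x y hxy))

theorem exists_labK {p : Fin n → Pt} {J : Finset (Fin n)} {δ : ℝ} {C : Finset (Fin n)}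
    {k : Fin n → Fin n} (h : Sharp p J δ C k) {X : Fin n → Fin n → Bool}
    (hXC : ∀ i ∈ C, X i (k i) = true) {G : GaussWord N} {e : Fin N × Bool → Fin n × Fin n}
    (hW : IsWord X (dat p).2.1 G e) (hne : C.Nonempty) :
    ∃ z : Fin n → Fin N × Bool, IsLab p C k e z := by
  classical
  have hne : Nonempty (Fin N × Bool) := by
    obtain ⟨i, hi⟩ := hne
    obtain ⟨c, b, _⟩ := exists_label hW i (k i) (hXC i hi)
    exact ⟨(c, b)⟩
  have hlab : ∀ i, ∃ z : Fin N × Bool, i ∈ C → e (z.1, z.2) = (i, k i) ∧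
      e (z.1, !z.2) = (k i, i) := by
    intro i
    by_cases hi : i ∈ C
    · obtain ⟨c, b, hcb⟩ := exists_label hW i (k i) (hXC i hi)
      exact ⟨(c, b), fun _ => hcb⟩
    · exact ⟨Classical.arbitrary _, fun hh => absurd hh hi⟩
  choose z hz using hlab
  refine ⟨z, fun i hi => (hz i hi).1, fun i hi => (hz i hi).2, ?_⟩
  intro i hi j hj hij
  have e1 := hz i hi
  have e2 := hz j hj
  have e3 : (z i).1 = (z j).1 := hij
  rcases Bool.eq_or_eq_not (z i).2 (z j).2 with h3 | h3
  · rw [← e3, ← h3, e1.1] at e2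
    exact (Prod.ext_iff.1 e2.1).1
  · exfalso
    rw [← e3] at e2
    have h4 : e ((z i).1, (z i).2) = (k j, j) := by
      rw [h3]
      exact e2.2
    rw [e1.1] at h4
    have h5 : i = k j := (Prod.ext_iff.1 h4).1
    exact h.ki j hj (h5 ▸ h.sub hi)

theorem wS_eqK {p : Fin n → Pt} {J : Finset (Fin n)} {δ : ℝ} {X : Fin n → Fin n → Bool}
    {G : GaussWord N} {e : Fin N × Bool → Fin n × Fin n} (hW : IsWord X (dat p).2.1 G e)
    (ε : Fin n → Bool) (c : Fin N) (b : Bool) :
    wS p J δ e ε c = SG p J δ ε (e (c, b)).1 (e (c, b)).2 := by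
  cases b
  · rfl
  · rw [hW.2.1 c]
    exact (SG_swap p J δ ε _ _).symm

/-- changing the height of one vertex changes the sign of one crossing -/
theorem wS_updateK {p : Fin n → Pt} {J : Finset (Fin n)} {δ : ℝ} (hδ : 0 < δ) {C : Finset (Fin n)}
    {k : Fin n → Fin n} (h : Sharp p J δ C k) {X : Fin n → Fin n → Bool}
    (hX' : ∀ i j, X i j = true → Cr p i j) {G : GaussWord N} {e : Fin N × Bool → Fin n × Fin n}
    (hW : IsWord X (dat p).2.1 G e) {z : Fin n → Fin N × Bool} (hz : IsLab p C k e z)
    (ε : Fin n → Bool) (i : Fin n) (hi : i ∈ C) (b : Bool) :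
    wS p J δ e (update ε i b) = update (wS p J δ e ε) (z i).1 (dS p k i == b) := by
  classical
  have hinj := word_injK hW
  funext c
  by_cases hc : c = (z i).1
  · subst hc
    rw [update_self, wS_eqK hW _ _ (z i).2, hz.fst i hi, SG_sharp h _ i hi, update_self]
    rfl
  · rw [update_of_ne hc]
    by_cases hc' : ∃ j ∈ C, (z j).1 = c
    · obtain ⟨j, hj, rfl⟩ := hc'
      have hij : j ≠ i := fun h' => hc (by rw [h'])
      rw [wS_eqK hW _ _ (z j).2, wS_eqK hW _ _ (z j).2, hz.fst j hj, SG_sharp h _ j hj,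
        SG_sharp h _ j hj, update_of_ne hij]
    · refine SG_other hδ h _ _ ?_ _ _ (hX' _ _ (hW.1 (c, false))) ?_
      · intro j hj
        rw [update_of_ne (fun h' => hj (by rw [h']; exact hi))]
      · intro j hj
        constructor
        · intro h3
          apply hc'
          refine ⟨j, hj, ?_⟩
          have h4 : e (c, false) = e ((z j).1, (z j).2) := by
            rw [hz.fst j hj, ← h3]
          exact (Prod.ext_iff.1 (hinj h4)).1.symm
        · intro h3
          apply hc'
          refine ⟨j, hj, ?_⟩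
          have h4 : e (c, true) = e ((z j).1, (z j).2) := by
            rw [hz.fst j hj, ← h3, hW.2.1 c]
            rfl
          exact (Prod.ext_iff.1 (hinj h4)).1.symm

/-- the order of the passages -/
theorem lab_ltK {X : Fin n → Fin n → Bool} {O : Fin n → Fin n → Fin n → Bool} {G : GaussWord N}
    {e : Fin N × Bool → Fin n × Fin n} (hW : IsWord X O G e) {x y : Fin N × Bool} (h : (e x).1 < (e y).1) :
    G x < G y := (hW.2.2.2 x y).2 (Or.inl h)


/-- only the crossings of the edges which are not the closing edge -/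
def cutX (X : Fin n → Fin n → Bool) (i j : Fin n) : Bool :=
  X i j && (decide ((i : ℕ) + 1 < n) && decide ((j : ℕ) + 1 < n))

/-- the data of the open chain -/
def cut (e : Dat n) : Dat n := (cutX e.1, e.2.1, e.2.2)

theorem cutX_iff (p : Fin n → Pt) (i j : Fin n) :
    cutX (dat p).1 i j = true ↔ Cr p i j ∧ (i : ℕ) + 1 < n ∧ (j : ℕ) + 1 < n := by
  unfold cutX
  rw [Bool.and_eq_true, Bool.and_eq_true, decide_eq_true_iff, decide_eq_true_iff, dat_X]

theorem word_cut {p : Fin n → Pt} (hp : Gen p) :
    ∃ (N : ℕ) (G : GaussWord N) (e : Fin N × Bool → Fin n × Fin n),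
      IsWord (cutX (dat p).1) (dat p).2.1 G e := by
  classical
  apply word_exists
  · intro i
    rw [Bool.eq_false_iff]
    intro h
    exact Cr_irrefl p i ((cutX_iff p i i).1 h).1
  · intro i j
    rw [Bool.eq_iff_iff, cutX_iff, cutX_iff, Cr_comm p i j]
    tauto
  · intro i j
    rw [Bool.eq_false_iff]
    intro h
    exact lt_irrefl _ ((dat_O p i j j).1 h)
  · intro i j k hj hk hjk
    rw [cutX_iff] at hj hk
    rw [dat_O, dat_O]
    exact lt_or_gt_of_ne (hp.notrip i j k hj.1 hk.1 hjk)
  · intro i j k l h1 h2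
    rw [dat_O] at *
    exact h1.trans h2

theorem diffCut {n : ℕ} {d : ℕ} (hd : 2 ≤ d) :
    DiffK (n := n) (xJ d) (yJ d) (fun p => moment d (pol (cut (dat p)))) (aJ d) := by
  intro p J δ C k hδ hgen hsh hpl hfar
  have hp : Gen p := by
    have := hgen (fun _ => false)
    rwa [shift_false] at this
  have h := Sharp.iUnion hsh
  by_cases hne : (univ.biUnion C).Nonempty
  · obtain ⟨N, G, e, hW, hpol⟩ := pol_eq _ _ (word_cut hp)
    have hX : ∀ i j, cutX (dat p).1 i j = true → Cr p i j := fun i j hij => ((cutX_iff p i j).1 hij).1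
    obtain ⟨z, hz⟩ := exists_labK h (fun i hi => by
      obtain ⟨j, _, hj⟩ := mem_biUnion.1 hi
      exact (cutX_iff p i (k i)).2 ⟨h.cross i hi, (hfar j i hj).1, (hfar j i hj).2⟩) hW hne
    refine ⟨fun i => sg (dS p k i), fun i => ?_, ?_⟩
    · cases h0 : dS p k i
      · right
        simp only [h0]
        rfl
      · left
        simp only [h0]
        rfl
    have hV : (fun ε => moment d (pol (cut (dat (shift p J δ ε))))) =
        fun ε => (1 : ℤ) • (fun w => moment d (fPoly G w)) (wS p J δ e ε) := by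
      funext ε
      rw [one_smul, dat_shift]
      show moment d (pol (cutX (dat p).1, (dat p).2.1, _)) = _
      rw [hpol]
      rfl
    rw [hV, show aJ d = (1 : ℤ) • aJ d from (one_smul _ _).symm]
    refine tr_of (dS p k) (fun i => (z i).1) (wS p J δ e) (aJ d) (List.ofFn C)
      (fun w => moment d (fPoly G w)) 1 ?_ ?_
    · intro C' hC' i hi ε b
      rw [List.mem_ofFn] at hC'
      obtain ⟨j, rfl⟩ := hC'
      exact wS_updateK hδ h hX hW hz ε i (mem_biUnion.2 ⟨j, mem_univ _, hi⟩) b
    · intro l hl w'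
      obtain ⟨g, rfl, hg⟩ := forall₂_ofFn hl
      have hgC : ∀ j, g j ∈ univ.biUnion C := fun j => mem_biUnion.2 ⟨j, mem_univ _, hg j⟩
      have hlen : ((List.ofFn g).map fun i => (z i).1).length = d := by simp
      have hs := symb N G ((List.ofFn g).map fun i => (z i).1) (by
        rw [List.map_ofFn, List.pairwise_ofFn]
        intro j j' hjj
        obtain ⟨q1, q2, q3, q4⟩ := hpl j j' (g j) (hg j) (g j') (hg j')
        obtain ⟨_, q5, _, _⟩ := hpl j' j (g j') (hg j') (g j) (hg j)
        have r1 : g j < g j' := q1 hjj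
        have r2 : g j' < k (g j) := q5 (by unfold xJ yJ; have := j'.2; omega)
        have r3 : k (g j) < k (g j') := q4 (by unfold yJ; rw [Fin.lt_def] at hjj; omega)
        refine crosses_of G _ _ (z (g j)).2 (z (g j')).2 ?_ ?_ ?_
        · apply lab_ltK hW
          show (e ((z (g j)).1, (z (g j)).2)).1 < (e ((z (g j')).1, (z (g j')).2)).1
          rw [hz.fst _ (hgC j), hz.fst _ (hgC j')]
          exact r1
        · apply lab_ltK hW
          show (e ((z (g j')).1, (z (g j')).2)).1 < (e ((z (g j)).1, !(z (g j)).2)).1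
          rw [hz.fst _ (hgC j'), hz.snd _ (hgC j)]
          exact r2
        · apply lab_ltK hW
          show (e ((z (g j)).1, !(z (g j)).2)).1 < (e ((z (g j')).1, !(z (g j')).2)).1
          rw [hz.snd _ (hgC j), hz.snd _ (hgC j')]
          exact r3) (by
        intro h0
        have := congrArg List.length h0
        rw [hlen, List.length_nil] at this
        omega) w'
      rw [hlen] at hs
      have h4 : (4 : ℤ) ^ d = 2 * (2 * 4 ^ (d - 1)) := by
        obtain ⟨d', rfl⟩ : ∃ d', d = d' + 1 := ⟨d - 1, by omega⟩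
        rw [Nat.add_sub_cancel, pow_succ]
        ring
      have h5 : (2 : ℤ) * difs ((List.ofFn g).map fun i => (z i).1)
          (fun w => moment d (fPoly G w)) w' = 2 * aJ d := by
        rw [hs, h4]
        unfold aJ
        ring
      omega
  · refine ⟨fun _ => 1, fun _ => Or.inl rfl, ?_⟩
    have h0 : C ⟨0, by omega⟩ = ∅ := by
      by_contra h1
      apply hne
      obtain ⟨i, hi⟩ := Finset.nonempty_iff_ne_empty.2 h1
      exact ⟨i, mem_biUnion.2 ⟨_, mem_univ _, hi⟩⟩
    obtain ⟨d', rfl⟩ : ∃ d', d = d' + 1 := ⟨d - 1, by omega⟩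
    rw [List.ofFn_succ]
    intro i hi
    have h2 : C 0 = ∅ := h0
    rw [h2] at hi
    exact absurd hi (notMem_empty i)

end Pool.Agent.H756.RV
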